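import Mathlib

/-!
# Campbell's majorization-subordination conjecture for linear-invariant families

Let `F` be normalised and locally univalent in the unit disc, of order at most `α` (`α ≥ 1`), let
`f ≺ F` and `f'(0) ≥ 0`.  Then `|f'(z)| ≤ |F'(z)|` for `|z| < ρ(α) = α + 1 - √(α² + 2α)`.

Outline of the proof.
* `distortion`: the sharp two-point distortion theorem
  `|F'(w)| (1-|w|²) ≤ |F'(z)| (1-|z|²) ((1+p)/(1-p))^α`, `p` the pseudohyperbolic distance.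
* `schwarz_key`: for a Schwarz function `w` with `w'(0) ≥ 0` and `|z| = r ≤ 2 - √3`,
  `(1-r²)² |w'(z)| ≤ (|1 - conj z w| - (1-r)²/(2r) |w - z|)²`.
  It is derived from the Schwarz-Pick inequality (Dieudonne's lemma) and the algebraic
  inequality `core`, which is proved by two applications of the arithmetic-geometric mean
  inequality.
* `bernoulli_step`: Bernoulli's inequality combines the two.
-/

open Complex Metric Set
open scoped ComplexConjugate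

namespace Pool.Agent.Results.MP_c4ccc8_an.Campbell

theorem core_aux1 (b t y k lam mu : ℝ) (hb0 : 0 < b) (hb : b ≤ 1 / 2)
    (hk : k ^ 2 = 1 - b ^ 2) (ht0 : 0 ≤ t) (ht1 : t ≤ 1) (hy1 : -b ≤ y) (hy2 : y ≤ b)
    (hlam0 : 0 < lam) (hlam1 : lam ≤ 1 + b) (hmuk : k ^ 2 ≤ mu) (hk1 : 0 < k ^ 2) :
    0 ≤ t * (y + b) + k ^ 2 * (2 * (1 - t ^ 2) / lam - (b + y) / mu) := by
  have h4 : (b + y) / mu ≤ (b + y) / k ^ 2 :=
    div_le_div_of_nonneg_left (by linarith) hk1 hmuk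
  have h5 : k ^ 2 * ((b + y) / k ^ 2) = b + y := mul_div_cancel₀ _ hk1.ne'
  have h6 : (1 - t) * (b + y) ≤ k ^ 2 * (2 * (1 - t ^ 2) / lam) := by
    rw [mul_div_assoc', le_div_iff₀ hlam0]
    have h7 : (b + y) * lam ≤ 2 * k ^ 2 * (1 + t) := by
      have h8 : (b + y) * lam ≤ (2 * b) * (1 + b) :=
        mul_le_mul (by linarith) hlam1 hlam0.le (by linarith)
      have h9 : (2 * b) * (1 + b) ≤ 2 * k ^ 2 := by
        rw [hk]; nlinarith
      have h10 : 2 * k ^ 2 ≤ 2 * k ^ 2 * (1 + t) := by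
        have := mul_nonneg hk1.le ht0
        linarith
      linarith
    have h11 := mul_le_mul_of_nonneg_left h7 (by linarith : 0 ≤ 1 - t)
    calc (1 - t) * (b + y) * lam = (1 - t) * ((b + y) * lam) := by ring
      _ ≤ (1 - t) * (2 * k ^ 2 * (1 + t)) := h11
      _ = k ^ 2 * (2 * (1 - t ^ 2)) := by ring
  have h8 : k ^ 2 * ((b + y) / mu) ≤ b + y := by
    have := mul_le_mul_of_nonneg_left h4 hk1.le
    linarith
  have h9 : k ^ 2 * (2 * (1 - t ^ 2) / lam - (b + y) / mu) =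
    k ^ 2 * (2 * (1 - t ^ 2) / lam) - k ^ 2 * ((b + y) / mu) := by ring
  rw [h9]
  linarith

theorem core_aux2 (b t y K k lam mu : ℝ) (hb0 : 0 < b) (hb : b ≤ 1 / 2) (hk0 : 0 < k)
    (hk : k ^ 2 = 1 - b ^ 2) (ht0 : 0 ≤ t) (hy2 : y ≤ b)
    (hK : k ≤ K)
    (hlam0 : 0 < lam) (hlam1 : lam ≤ 1 + b) (hmu : mu = k ^ 2 + t * (1 - y)) (hmu0 : 0 < mu) :
    0 ≤ (K - k) * (2 * k ^ 2 * (1 + t) * (K + k) / lam
      - 2 * (1 - b) * k * t * (1 - y) / mu) := by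
  apply mul_nonneg (by linarith)
  rw [sub_nonneg, div_le_div_iff₀ hmu0 hlam0]
  have hk1 : 0 < k ^ 2 := by positivity
  have h0 : 0 ≤ t * (1 - y) := mul_nonneg ht0 (by linarith)
  have h1 : t * (1 - y) ≤ mu := by linarith
  have h2 : (1 - b) * lam ≤ k ^ 2 := by
    have := mul_le_mul_of_nonneg_left hlam1 (by linarith : (0:ℝ) ≤ 1 - b)
    rw [hk]; linarith
  have h3 : k ^ 2 ≤ k * (1 + t) * (K + k) := by
    have hK0 : 0 < K := lt_of_lt_of_le hk0 hK
    have e1 : 0 ≤ k * K := by positivity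
    have e2 : 0 ≤ k * t * (K + k) := by positivity
    have : k * (1 + t) * (K + k) = k ^ 2 + k * K + k * t * (K + k) := by ring
    linarith
  have h4 : ((1 - b) * lam) * (t * (1 - y)) ≤ (k * (1 + t) * (K + k)) * mu := by
    apply mul_le_mul (by linarith) h1 h0
    linarith
  have h5 := mul_le_mul_of_nonneg_left h4 (by positivity : (0:ℝ) ≤ 2 * k)
  calc 2 * (1 - b) * k * t * (1 - y) * lam = 2 * k * (((1 - b) * lam) * (t * (1 - y))) := by ring
    _ ≤ 2 * k * ((k * (1 + t) * (K + k)) * mu) := h5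
    _ = 2 * k ^ 2 * (1 + t) * (K + k) * mu := by ring

/-- Real-variable core inequality. -/
theorem core (b t y K k D C : ℝ) (hb0 : 0 < b) (hb : b ≤ 1 / 2) (hk0 : 0 < k)
    (hk : k ^ 2 = 1 - b ^ 2) (ht0 : 0 ≤ t) (ht1 : t ≤ 1) (hy1 : -b ≤ y) (hy2 : y ≤ b)
    (hK : k ≤ K)
    (hD : D ^ 2 = (1 + y + t * (1 - y)) ^ 2 - 4 * t * K ^ 2)
    (hC : C ^ 2 = (1 - y) * (k ^ 2 * (1 + y) + t ^ 2 * (1 - y) + 2 * k * t * K)) :
    k ^ 2 * (1 + t) * D + 2 * (1 - b) * t * C ≤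
      k ^ 2 * (1 + y) + 2 * k ^ 2 * t + t ^ 2 * (1 - y) * (1 + (1 - b) ^ 2) := by
  have hk1 : 0 < k ^ 2 := by positivity
  have hlam1 : (1 - t) * (1 + y) + 2 * b * t ≤ 1 + b := by
    have h1 : (1 - t) * (1 + y) ≤ (1 - t) * (1 + b) :=
      mul_le_mul_of_nonneg_left (by linarith) (by linarith)
    have h2 : t * (1 - b) ≥ 0 := mul_nonneg ht0 (by linarith)
    nlinarith only [h1, h2]
  have hlam0 : 0 < (1 - t) * (1 + y) + 2 * b * t := by
    have h1 : 0 < 1 + y := by linarith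
    have h2 : 0 ≤ (1 - t) * (1 + y) := by
      apply mul_nonneg <;> linarith
    rcases eq_or_lt_of_le ht0 with h | h
    · rw [← h]; linarith
    · have : 0 < 2 * b * t := by positivity
      linarith
  have hty : 0 ≤ t * (1 - y) := mul_nonneg ht0 (by linarith)
  obtain ⟨lam, hlam⟩ : ∃ lam, lam = (1 - t) * (1 + y) + 2 * b * t := ⟨_, rfl⟩
  obtain ⟨mu, hmu⟩ : ∃ mu, mu = k ^ 2 + t * (1 - y) := ⟨_, rfl⟩
  rw [← hlam] at hlam0 hlam1
  have hmu0 : 0 < mu := by linarith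
  have hmuk : k ^ 2 ≤ mu := by linarith
  -- AM-GM bounds
  have hDb : D ≤ lam + (D ^ 2 - lam ^ 2) / (2 * lam) := by
    rw [← sub_le_iff_le_add', le_div_iff₀ (by positivity)]
    nlinarith only [sq_nonneg (D - lam)]
  have hCb : C ≤ mu + (C ^ 2 - mu ^ 2) / (2 * mu) := by
    rw [← sub_le_iff_le_add', le_div_iff₀ (by positivity)]
    nlinarith only [sq_nonneg (C - mu)]
  have hDl : D ^ 2 - lam ^ 2 =
      -(4 * t * (1 - t) * (1 - b) * (b - y)) - 4 * t * (K ^ 2 - k ^ 2) := by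
    rw [hD, hlam]
    linear_combination (-4 * t) * hk
  have hCl : C ^ 2 - mu ^ 2 = k ^ 2 * (b ^ 2 - y ^ 2) + 2 * k * t * (K - k) * (1 - y) := by
    rw [hC, hmu]
    linear_combination (-k ^ 2) * hk
  -- main estimate
  have hg : 0 ≤ (1 - b) * (b - y) := mul_nonneg (by linarith) (by linarith)
  have hgle : (1 - b) * (b - y) ≤ 1 - 2 * b ^ 2 := by
    have := mul_nonneg (by linarith : (0:ℝ) ≤ 1 - b) (by linarith : 0 ≤ y + b)
    nlinarith only [this, hb, hb0]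
  obtain ⟨c1, hc1⟩ : ∃ c1, c1 = b ^ 2 * (1 - y) + k ^ 2 * (1 + y - 2 * b) := ⟨_, rfl⟩
  have hc1' : (1 - 2 * b ^ 2) * (y + b) ≤ c1 := by
    have h0 := mul_nonneg (sq_nonneg (1 - 2 * b)) (by linarith : (0:ℝ) ≤ 1 + b)
    have h1 : c1 = (1 - 2 * b) ^ 2 * (1 + b) + (1 - 2 * b ^ 2) * (y + b) := by
      rw [hc1, hk]; ring
    linarith
  have hc1'' : (1 - b) * (b - y) * (y + b) ≤ c1 := by
    refine le_trans ?_ hc1'
    exact mul_le_mul_of_nonneg_right hgle (by linarith)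
  have hE : 0 ≤ t * c1 + k ^ 2 * (1 - b) * (b - y) * (2 * (1 - t ^ 2) / lam - (b + y) / mu) := by
    have h1 : t * ((1 - b) * (b - y) * (y + b)) ≤ t * c1 := mul_le_mul_of_nonneg_left hc1'' ht0
    have h3 := core_aux1 b t y k lam mu hb0 hb hk ht0 ht1 hy1 hy2 hlam0 hlam1 hmuk hk1
    have h4 := mul_nonneg hg h3
    have h5 : (1 - b) * (b - y) * (t * (y + b) + k ^ 2 * (2 * (1 - t ^ 2) / lam - (b + y) / mu))
      = t * ((1 - b) * (b - y) * (y + b)) +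
        k ^ 2 * (1 - b) * (b - y) * (2 * (1 - t ^ 2) / lam - (b + y) / mu) := by ring
    linarith
  have hF := core_aux2 b t y K k lam mu hb0 hb hk0 hk ht0 hy2 hK hlam0 hlam1 hmu hmu0
  have key : k ^ 2 * (1 + y) + 2 * k ^ 2 * t + t ^ 2 * (1 - y) * (1 + (1 - b) ^ 2) -
      (k ^ 2 * (1 + t) * (lam + (D ^ 2 - lam ^ 2) / (2 * lam)) +
        2 * (1 - b) * t * (mu + (C ^ 2 - mu ^ 2) / (2 * mu))) =
      t * (t * c1 + k ^ 2 * (1 - b) * (b - y) * (2 * (1 - t ^ 2) / lam - (b + y) / mu)) +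
      t * ((K - k) * (2 * k ^ 2 * (1 + t) * (K + k) / lam
        - 2 * (1 - b) * k * t * (1 - y) / mu)) := by
    rw [hDl, hCl]
    have e1 : lam ≠ 0 := hlam0.ne'
    have e2 : mu ≠ 0 := hmu0.ne'
    have e3 : k ^ 2 * (1 + y) + 2 * k ^ 2 * t + t ^ 2 * (1 - y) * (1 + (1 - b) ^ 2) -
      (k ^ 2 * (1 + t) * lam + 2 * (1 - b) * t * mu) = t * (t * c1) := by
      rw [hlam, hmu, hc1]; ring
    have e4 : (-(4 * t * (1 - t) * (1 - b) * (b - y)) - 4 * t * (K ^ 2 - k ^ 2)) / (2 * lam)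
      = -(2 * t * (1 - t) * (1 - b) * (b - y) / lam) - 2 * t * ((K - k) * (K + k)) / lam := by
      field_simp; ring
    have e5 : (k ^ 2 * (b ^ 2 - y ^ 2) + 2 * k * t * (K - k) * (1 - y)) / (2 * mu)
      = k ^ 2 * ((b - y) * (b + y)) / (2 * mu) + k * t * (K - k) * (1 - y) / mu := by
      field_simp; ring
    rw [e4, e5]
    linear_combination e3
  have t1 : 0 ≤ t * (t * c1 + k ^ 2 * (1 - b) * (b - y) * (2 * (1 - t ^ 2) / lam - (b + y) / mu)) :=
    mul_nonneg ht0 hE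
  have t2 := mul_nonneg ht0 hF
  have t3 : k ^ 2 * (1 + t) * D ≤ k ^ 2 * (1 + t) * (lam + (D ^ 2 - lam ^ 2) / (2 * lam)) :=
    mul_le_mul_of_nonneg_left hDb (by positivity)
  have t4 : 2 * (1 - b) * t * C ≤ 2 * (1 - b) * t * (mu + (C ^ 2 - mu ^ 2) / (2 * mu)) :=
    mul_le_mul_of_nonneg_left hCb (by apply mul_nonneg _ ht0; linarith)
  linarith

theorem sq_norm_D (q : ℂ) (t : ℝ) :
    ‖(1 + q) ^ 2 - t * (1 - q) ^ 2‖ ^ 2 =
      (1 + ‖q‖ ^ 2 + 2 * q.re + t * (1 + ‖q‖ ^ 2 - 2 * q.re)) ^ 2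
        - 4 * t * (1 - ‖q‖ ^ 2) ^ 2 := by
  rw [Complex.sq_norm, Complex.sq_norm, normSq_apply, normSq_apply]
  simp [pow_two]
  ring

theorem sq_norm_A (q : ℂ) (t k : ℝ) :
    ‖k * (1 + q) + t * (1 - q)‖ ^ 2 =
      k ^ 2 * (1 + ‖q‖ ^ 2 + 2 * q.re) + t ^ 2 * (1 + ‖q‖ ^ 2 - 2 * q.re)
        + 2 * k * t * (1 - ‖q‖ ^ 2) := by
  rw [Complex.sq_norm, Complex.sq_norm, normSq_apply, normSq_apply]
  simp [pow_two]
  ring

theorem sq_norm_B (q : ℂ) : ‖1 - q‖ ^ 2 = 1 + ‖q‖ ^ 2 - 2 * q.re := by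
  rw [Complex.sq_norm, Complex.sq_norm, normSq_apply, normSq_apply]
  simp
  ring

/-- The core inequality in terms of a point `q` of the disc of radius `r`. -/
theorem core_q (r b k t : ℝ) (q : ℂ) (hr0 : 0 < r) (hr1 : r < 1) (hr : 4 * r ≤ 1 + r ^ 2)
    (hb : b = 2 * r / (1 + r ^ 2)) (hk : k = (1 - r ^ 2) / (1 + r ^ 2))
    (ht0 : 0 ≤ t) (ht1 : t ≤ 1) (hq : ‖q‖ ≤ r) :
    k ^ 2 * (1 + t) * ‖(1 + q) ^ 2 - t * (1 - q) ^ 2‖ +
      2 * k * t * ((1 - ‖q‖ ^ 2) - k * (1 + ‖q‖ ^ 2)) ≤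
      (‖k * (1 + q) + t * (1 - q)‖ - (1 - b) * t * ‖1 - q‖) ^ 2 := by
  have hr2 : 0 < 1 - r ^ 2 := by nlinarith
  have hr3 : 0 < 1 + r ^ 2 := by positivity
  have hb0 : 0 < b := by rw [hb]; positivity
  have hb1 : b ≤ 1 / 2 := by
    rw [hb, div_le_div_iff₀ hr3 (by norm_num)]; linarith
  have hk0 : 0 < k := by rw [hk]; positivity
  have hkb : k ^ 2 = 1 - b ^ 2 := by
    rw [hb, hk]; field_simp; ring
  set n : ℝ := ‖q‖ ^ 2 with hn
  have hn0 : 0 ≤ n := by positivity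
  have hnr : n ≤ r ^ 2 := by
    rw [hn]; exact pow_le_pow_left₀ (norm_nonneg q) hq 2
  set m : ℝ := 1 + n with hm
  have hm0 : 0 < m := by positivity
  have hXn : q.re ^ 2 ≤ n := by
    rw [hn, Complex.sq_norm, normSq_apply]; nlinarith [sq_nonneg q.im]
  have hK : k ≤ (1 - n) / m := by
    rw [hk, div_le_div_iff₀ hr3 hm0, hm]; nlinarith
  have hyK : (2 * q.re / m) ^ 2 + ((1 - n) / m) ^ 2 ≤ 1 := by
    rw [div_pow, div_pow, ← add_div, div_le_one (by positivity), hm]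
    nlinarith
  have hy : (2 * q.re / m) ^ 2 ≤ b ^ 2 := by
    have : k ^ 2 ≤ ((1 - n) / m) ^ 2 := pow_le_pow_left₀ hk0.le hK 2
    linarith
  have hyabs := abs_le.mp (abs_le_of_sq_le_sq hy hb0.le)
  have hD : (‖(1 + q) ^ 2 - t * (1 - q) ^ 2‖ / m) ^ 2 =
      (1 + 2 * q.re / m + t * (1 - 2 * q.re / m)) ^ 2 - 4 * t * ((1 - n) / m) ^ 2 := by
    rw [div_pow, sq_norm_D, ← hn]
    field_simp
    ring
  have hC : ((‖k * (1 + q) + t * (1 - q)‖ * ‖1 - q‖) / m) ^ 2 =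
      (1 - 2 * q.re / m) * (k ^ 2 * (1 + 2 * q.re / m) + t ^ 2 * (1 - 2 * q.re / m)
        + 2 * k * t * ((1 - n) / m)) := by
    rw [div_pow, mul_pow, sq_norm_A, sq_norm_B, ← hn]
    field_simp
    ring
  have h := core b t (2 * q.re / m) ((1 - n) / m) k _ _ hb0 hb1 hk0 hkb ht0 ht1 hyabs.1 hyabs.2 hK
    hD hC
  have h2 := mul_le_mul_of_nonneg_left h hm0.le
  have h3 : m * (k ^ 2 * (1 + t) * (‖(1 + q) ^ 2 - t * (1 - q) ^ 2‖ / m) +
      2 * (1 - b) * t * (‖k * (1 + q) + t * (1 - q)‖ * ‖1 - q‖ / m)) =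
      k ^ 2 * (1 + t) * ‖(1 + q) ^ 2 - t * (1 - q) ^ 2‖ +
      2 * (1 - b) * t * (‖k * (1 + q) + t * (1 - q)‖ * ‖1 - q‖) := by
    field_simp
  have h4 : m * (k ^ 2 * (1 + 2 * q.re / m) + 2 * k ^ 2 * t +
      t ^ 2 * (1 - 2 * q.re / m) * (1 + (1 - b) ^ 2)) =
      k ^ 2 * (1 + n + 2 * q.re) + 2 * k ^ 2 * t * (1 + n) +
      t ^ 2 * (1 + n - 2 * q.re) * (1 + (1 - b) ^ 2) := by
    field_simp
    ring
  rw [h3, h4] at h2
  have hA := sq_norm_A q t k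
  have hB := sq_norm_B q
  rw [← hn] at hA hB
  have h5 : (‖k * (1 + q) + t * (1 - q)‖ - (1 - b) * t * ‖1 - q‖) ^ 2 =
    ‖k * (1 + q) + t * (1 - q)‖ ^ 2 - 2 * (1 - b) * t * (‖k * (1 + q) + t * (1 - q)‖ * ‖1 - q‖)
      + (1 - b) ^ 2 * t ^ 2 * ‖1 - q‖ ^ 2 := by ring
  rw [h5, hA, hB]
  linarith

/-- The inequality in the original variables `a`, `q`, `r`. -/
theorem core_a (r a e : ℝ) (q : ℂ) (hr0 : 0 < r) (hr1 : r < 1) (hr : 4 * r ≤ 1 + r ^ 2)
    (ha0 : 0 ≤ a) (ha1 : a ≤ 1) (hq : ‖q‖ ≤ r) (he : (1 - r ^ 2) * e ≤ r ^ 2 - ‖q‖ ^ 2) :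
    (1 - r ^ 2) ^ 2 * (‖a + 2 * q + a * q ^ 2‖ + (1 - a ^ 2) * e) ≤
      (‖(1 - r ^ 2 * a) + q * (a - r ^ 2)‖ - (1 - r) ^ 2 / 2 * ((1 - a) * ‖1 - q‖)) ^ 2 := by
  have hr2 : 0 < 1 - r ^ 2 := by nlinarith
  have hr3 : 0 < 1 + r ^ 2 := by positivity
  have ha : 0 < 1 + a := by linarith
  have h := core_q r _ _ ((1 - a) / (1 + a)) q hr0 hr1 hr rfl rfl
    (div_nonneg (by linarith) ha.le) (by rw [div_le_one ha]; linarith) hq
  set s : ℝ := (1 + r ^ 2) * (1 + a) / 2 with hs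
  have hs0 : 0 < s := by positivity
  have h2 := mul_le_mul_of_nonneg_left h (sq_nonneg s)
  have e1 : s * ‖(((1 - r ^ 2) / (1 + r ^ 2) : ℝ) : ℂ) * (1 + q) +
      (((1 - a) / (1 + a) : ℝ) : ℂ) * (1 - q)‖ = ‖(1 - r ^ 2 * a) + q * (a - r ^ 2)‖ := by
    have : (s : ℂ) * ((((1 - r ^ 2) / (1 + r ^ 2) : ℝ) : ℂ) * (1 + q) +
      (((1 - a) / (1 + a) : ℝ) : ℂ) * (1 - q)) = (1 - r ^ 2 * a) + q * (a - r ^ 2) := by
      rw [hs]
      push_cast
      have c1 : (1 + (r:ℂ) ^ 2) ≠ 0 := by exact_mod_cast hr3.ne'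
      have c2 : (1 + (a:ℂ)) ≠ 0 := by exact_mod_cast ha.ne'
      field_simp
      ring
    rw [← this, norm_mul, Complex.norm_real, Real.norm_eq_abs, abs_of_pos hs0]
  have e2 : (1 + a) / 2 * ‖(1 + q) ^ 2 - (((1 - a) / (1 + a) : ℝ) : ℂ) * (1 - q) ^ 2‖ =
      ‖a + 2 * q + a * q ^ 2‖ := by
    have : (((1 + a) / 2 : ℝ) : ℂ) * ((1 + q) ^ 2 - (((1 - a) / (1 + a) : ℝ) : ℂ) * (1 - q) ^ 2) =
        a + 2 * q + a * q ^ 2 := by
      push_cast
      have c2 : (1 + (a:ℂ)) ≠ 0 := by exact_mod_cast ha.ne'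
      field_simp
      ring
    rw [← this, norm_mul, Complex.norm_real, Real.norm_eq_abs, abs_of_pos (by positivity)]
  have e3 : s ^ 2 * (‖(((1 - r ^ 2) / (1 + r ^ 2) : ℝ) : ℂ) * (1 + q) +
      (((1 - a) / (1 + a) : ℝ) : ℂ) * (1 - q)‖ -
      (1 - 2 * r / (1 + r ^ 2)) * ((1 - a) / (1 + a)) * ‖1 - q‖) ^ 2 =
      (‖(1 - r ^ 2 * a) + q * (a - r ^ 2)‖ - (1 - r) ^ 2 / 2 * ((1 - a) * ‖1 - q‖)) ^ 2 := by
    rw [← mul_pow, mul_sub, e1]
    congr 2
    rw [hs]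
    field_simp
    ring
  have e4 : s ^ 2 * (((1 - r ^ 2) / (1 + r ^ 2)) ^ 2 * (1 + (1 - a) / (1 + a)) *
      ‖(1 + q) ^ 2 - (((1 - a) / (1 + a) : ℝ) : ℂ) * (1 - q) ^ 2‖ +
      2 * ((1 - r ^ 2) / (1 + r ^ 2)) * ((1 - a) / (1 + a)) *
        ((1 - ‖q‖ ^ 2) - ((1 - r ^ 2) / (1 + r ^ 2)) * (1 + ‖q‖ ^ 2))) =
      (1 - r ^ 2) ^ 2 * ‖a + 2 * q + a * q ^ 2‖ +
        (1 - r ^ 2) * (1 - a ^ 2) * (r ^ 2 - ‖q‖ ^ 2) := by
    rw [← e2, hs]
    field_simp
    ring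
  rw [e3, e4] at h2
  refine le_trans ?_ h2
  have ha2 : 0 ≤ 1 - a ^ 2 := by nlinarith
  have h6 := mul_le_mul_of_nonneg_left he (mul_nonneg hr2.le ha2)
  nlinarith only [h6]

/-- Derivative of the squared norm of a complex valued curve. -/
theorem hasDerivAt_sq_norm {g : ℝ → ℂ} {g' : ℂ} {s : ℝ} (hg : HasDerivAt g g' s) :
    HasDerivAt (fun x => ‖g x‖ ^ 2) (2 * (conj (g s) * g').re) s := by
  have := hg.norm_sq
  convert this using 1
  simp [Complex.inner]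
  ring

theorem moebius_norm (z v : ℂ) (s : ℝ) (h : 1 + s * (conj z * v) ≠ 0) :
    1 - ‖(z + s * v) / (1 + s * (conj z * v))‖ ^ 2 =
      (1 - ‖z‖ ^ 2) * (1 - s ^ 2 * ‖v‖ ^ 2) / ‖1 + s * (conj z * v)‖ ^ 2 := by
  have h1 : ‖1 + s * (conj z * v)‖ ^ 2 ≠ 0 := by
    simpa using h
  rw [norm_div, div_pow, eq_div_iff h1, sub_mul, div_mul_cancel₀ _ h1, one_mul]
  rw [Complex.sq_norm, Complex.sq_norm, Complex.sq_norm, Complex.sq_norm, normSq_apply,
    normSq_apply, normSq_apply, normSq_apply]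
  simp
  ring

theorem distortion {F : ℂ → ℂ} {α : ℝ} (hF : DifferentiableOn ℂ F (ball 0 1))
    (hF' : ∀ z ∈ ball (0:ℂ) 1, deriv F z ≠ 0)
    (hord : ∀ z ∈ ball (0:ℂ) 1,
      ‖-conj z + (1 - (‖z‖:ℂ) ^ 2) * deriv (deriv F) z / (2 * deriv F z)‖ ≤ α)
    {z w : ℂ} (hz : ‖z‖ < 1) (hw : ‖w‖ < 1) :
    ‖deriv F w‖ * (1 - ‖w‖ ^ 2) ≤ ‖deriv F z‖ * (1 - ‖z‖ ^ 2) *
      ((‖1 - conj z * w‖ + ‖w - z‖) / (‖1 - conj z * w‖ - ‖w - z‖)) ^ α := by
  have hzz : ‖conj z * w‖ < 1 := by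
    rw [norm_mul, RCLike.norm_conj]
    nlinarith [norm_nonneg z, norm_nonneg w]
  have hden : 1 - conj z * w ≠ 0 := by
    intro h
    have : conj z * w = 1 := by linear_combination -h
    rw [this] at hzz
    simp at hzz
  set v : ℂ := (w - z) / (1 - conj z * w) with hv
  set p : ℝ := ‖v‖ with hp
  have hp0 : 0 ≤ p := norm_nonneg v
  have hS : 0 < ‖1 - conj z * w‖ := norm_pos_iff.mpr hden
  have hSR : ‖1 - conj z * w‖ ^ 2 - ‖w - z‖ ^ 2 = (1 - ‖z‖ ^ 2) * (1 - ‖w‖ ^ 2) := by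
    rw [Complex.sq_norm, Complex.sq_norm, Complex.sq_norm, Complex.sq_norm, normSq_apply,
      normSq_apply, normSq_apply, normSq_apply]
    simp
    ring
  have hz2 : 0 < 1 - ‖z‖ ^ 2 := by nlinarith [norm_nonneg z]
  have hw2 : 0 < 1 - ‖w‖ ^ 2 := by nlinarith [norm_nonneg w]
  have hRS : ‖w - z‖ < ‖1 - conj z * w‖ := by
    have : 0 < ‖1 - conj z * w‖ ^ 2 - ‖w - z‖ ^ 2 := by rw [hSR]; positivity
    nlinarith [norm_nonneg (w - z)]
  have hpv : p = ‖w - z‖ / ‖1 - conj z * w‖ := by rw [hp, hv, norm_div]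
  have hp1 : p < 1 := by rw [hpv, div_lt_one hS]; exact hRS
  -- the path
  have hd : ∀ s ∈ Icc (0:ℝ) 1, 1 + s * (conj z * v) ≠ 0 := by
    intro s hs h
    have h1 : ‖(s:ℂ) * (conj z * v)‖ = 1 := by
      have : (s:ℂ) * (conj z * v) = -1 := by linear_combination h
      rw [this]; simp
    rw [norm_mul, norm_mul, RCLike.norm_conj, Complex.norm_real, Real.norm_eq_abs,
      abs_of_nonneg hs.1] at h1
    have h2 : ‖z‖ * ‖v‖ < 1 := by nlinarith [norm_nonneg z]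
    have h3 : 0 ≤ ‖z‖ * ‖v‖ := by positivity
    nlinarith [hs.1, hs.2]
  set γ : ℝ → ℂ := fun s => (z + s * v) / (1 + s * (conj z * v)) with hγ
  have hγ0 : γ 0 = z := by simp [hγ]
  have hγ1 : γ 1 = w := by
    simp only [hγ, hv]
    have h1 : (1:ℂ) - conj z * z ≠ 0 := by
      have : conj z * z = ((‖z‖ ^ 2 : ℝ) : ℂ) := by
        rw [mul_comm, Complex.mul_conj, Complex.normSq_eq_norm_sq]
      rw [this]
      intro h
      have h' : (1 : ℝ) - ‖z‖ ^ 2 = 0 := by exact_mod_cast h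
      linarith
    obtain ⟨dd, hdd⟩ : ∃ dd, dd = 1 - conj z * w := ⟨_, rfl⟩
    rw [← hdd] at hden ⊢
    have h2 : 1 + ((1:ℝ):ℂ) * (conj z * ((w - z) / dd)) = (1 - conj z * z) / dd := by
      rw [eq_div_iff hden, add_mul, mul_assoc, mul_assoc, div_mul_cancel₀ _ hden, hdd]
      push_cast
      ring
    have h3 : z + ((1:ℝ):ℂ) * ((w - z) / dd) = w * (1 - conj z * z) / dd := by
      rw [eq_div_iff hden, add_mul, mul_assoc, div_mul_cancel₀ _ hden, hdd]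
      push_cast
      ring
    rw [h2, h3, div_div_div_cancel_right₀ hden, mul_div_cancel_right₀ _ h1]
  have hγn : ∀ s ∈ Icc (0:ℝ) 1, 1 - ‖γ s‖ ^ 2 =
      (1 - ‖z‖ ^ 2) * (1 - s ^ 2 * p ^ 2) / ‖1 + s * (conj z * v)‖ ^ 2 := by
    intro s hs
    exact moebius_norm z v s (hd s hs)
  have hsp : ∀ s ∈ Icc (0:ℝ) 1, 0 < 1 - s ^ 2 * p ^ 2 := by
    intro s hs
    have h1 : s * p < 1 := by nlinarith [hs.1, hs.2]
    have h2 : 0 ≤ s * p := mul_nonneg hs.1 hp0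
    nlinarith
  have hγpos : ∀ s ∈ Icc (0:ℝ) 1, 0 < 1 - ‖γ s‖ ^ 2 := by
    intro s hs
    rw [hγn s hs]
    have := hsp s hs
    have h3 : 0 < ‖1 + s * (conj z * v)‖ := norm_pos_iff.mpr (hd s hs)
    positivity
  have hγball : ∀ s ∈ Icc (0:ℝ) 1, γ s ∈ ball (0:ℂ) 1 := by
    intro s hs
    rw [mem_ball_zero_iff]
    have := hγpos s hs
    nlinarith [norm_nonneg (γ s)]
  set γ' : ℝ → ℂ := fun s => v * (1 - (‖z‖:ℂ) ^ 2) / (1 + s * (conj z * v)) ^ 2 with hγ'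
  have hγd : ∀ s ∈ Icc (0:ℝ) 1, HasDerivAt γ (γ' s) s := by
    intro s hs
    have hnum : HasDerivAt (fun s : ℝ => z + (s:ℂ) * v) v s := by
      have := ((Complex.ofRealCLM.hasDerivAt (x := s)).mul_const v).const_add z
      simpa using this
    have hdn : HasDerivAt (fun s : ℝ => 1 + (s:ℂ) * (conj z * v)) (conj z * v) s := by
      have := ((Complex.ofRealCLM.hasDerivAt (x := s)).mul_const (conj z * v)).const_add 1
      simpa using this
    refine (hnum.div hdn (hd s hs)).congr_deriv ?_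
    change _ = v * (1 - (‖z‖:ℂ) ^ 2) / (1 + s * (conj z * v)) ^ 2
    congr 1
    have : ((‖z‖:ℂ)) ^ 2 = conj z * z := by
      rw [mul_comm, Complex.mul_conj, Complex.normSq_eq_norm_sq]
      push_cast; ring
    rw [this]
    ring
  have hratio : ∀ s ∈ Icc (0:ℝ) 1, ‖γ' s‖ / (1 - ‖γ s‖ ^ 2) = p / (1 - s ^ 2 * p ^ 2) := by
    intro s hs
    rw [hγn s hs]
    simp only [hγ']
    have h3 : 0 < ‖1 + s * (conj z * v)‖ := norm_pos_iff.mpr (hd s hs)
    have h4 := hsp s hs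
    have h5 : ‖(1:ℂ) - (‖z‖:ℂ) ^ 2‖ = 1 - ‖z‖ ^ 2 := by
      have : (1:ℂ) - (‖z‖:ℂ) ^ 2 = ((1 - ‖z‖ ^ 2 : ℝ) : ℂ) := by push_cast; ring
      rw [this, Complex.norm_real, Real.norm_eq_abs, abs_of_pos hz2]
    rw [norm_div, norm_mul, norm_pow, h5, ← hp]
    have h6 := h4.ne'
    have h7 := h3.ne'
    have h8 := hz2.ne'
    generalize ‖1 + (s:ℂ) * (conj z * v)‖ = G at *
    field_simp
  -- analyticity
  have hFa : AnalyticOnNhd ℂ F (ball 0 1) := hF.analyticOnNhd isOpen_ball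
  have hFd : ∀ x ∈ ball (0:ℂ) 1, HasDerivAt (deriv F) (deriv (deriv F) x) x := by
    intro x hx
    exact (hFa.deriv x hx).differentiableAt.hasDerivAt
  -- the monotone function
  set h : ℝ → ℝ := fun s => Real.log (‖deriv F (γ s)‖ ^ 2) + 2 * Real.log (1 - ‖γ s‖ ^ 2)
    - 2 * α * (Real.log (1 + p * s) - Real.log (1 - p * s)) with hh
  have hps : ∀ s ∈ Icc (0:ℝ) 1, 0 < 1 - p * s := by
    intro s hs
    nlinarith [hs.1, hs.2]
  have hps' : ∀ s ∈ Icc (0:ℝ) 1, 0 < 1 + p * s := by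
    intro s hs
    have := mul_nonneg hp0 hs.1
    linarith
  have hderiv : ∀ s ∈ Icc (0:ℝ) 1, HasDerivAt h
      (2 * (conj (deriv F (γ s)) * (deriv (deriv F) (γ s) * γ' s)).re / ‖deriv F (γ s)‖ ^ 2
        + 2 * ((- (2 * (conj (γ s) * γ' s).re)) / (1 - ‖γ s‖ ^ 2))
        - 2 * α * (p / (1 + p * s) - (-p) / (1 - p * s))) s := by
    intro s hs
    have h1 : HasDerivAt (fun s => deriv F (γ s)) (deriv (deriv F) (γ s) * γ' s) s :=
      (hFd (γ s) (hγball s hs)).comp s (hγd s hs)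
    have h2 := (hasDerivAt_sq_norm h1).log (by
      have := hF' (γ s) (hγball s hs)
      positivity)
    have h3 := ((hasDerivAt_sq_norm (hγd s hs)).const_sub 1).log (hγpos s hs).ne'
    have h4 : HasDerivAt (fun s : ℝ => 1 + p * s) p s := by
      simpa using ((hasDerivAt_id s).const_mul p).const_add 1
    have h5 : HasDerivAt (fun s : ℝ => 1 - p * s) (-p) s := by
      simpa using ((hasDerivAt_id s).const_mul p).const_sub 1
    have h6 := (h4.log (hps' s hs).ne').sub (h5.log (hps s hs).ne')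
    exact (h2.add (h3.const_mul 2)).sub (h6.const_mul (2 * α))
  have hneg : ∀ s ∈ Icc (0:ℝ) 1,
      (2 * (conj (deriv F (γ s)) * (deriv (deriv F) (γ s) * γ' s)).re / ‖deriv F (γ s)‖ ^ 2
        + 2 * ((- (2 * (conj (γ s) * γ' s).re)) / (1 - ‖γ s‖ ^ 2))
        - 2 * α * (p / (1 + p * s) - (-p) / (1 - p * s))) ≤ 0 := by
    intro s hs
    have hF1 := hF' (γ s) (hγball s hs)
    have hA := hord (γ s) (hγball s hs)
    set A : ℂ := -conj (γ s) + (1 - (‖γ s‖:ℂ) ^ 2) * deriv (deriv F) (γ s) / (2 * deriv F (γ s))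
      with hAdef
    have e1 : (conj (deriv F (γ s)) * (deriv (deriv F) (γ s) * γ' s)).re / ‖deriv F (γ s)‖ ^ 2 =
        (deriv (deriv F) (γ s) * γ' s / deriv F (γ s)).re := by
      have : deriv (deriv F) (γ s) * γ' s / deriv F (γ s) =
          (conj (deriv F (γ s)) * (deriv (deriv F) (γ s) * γ' s)) /
            ((‖deriv F (γ s)‖ ^ 2 : ℝ) : ℂ) := by
        have h1 : ((‖deriv F (γ s)‖ ^ 2 : ℝ) : ℂ) = deriv F (γ s) * conj (deriv F (γ s)) := by
          rw [Complex.mul_conj, Complex.normSq_eq_norm_sq]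
        rw [h1]
        have h2 : conj (deriv F (γ s)) ≠ 0 := by simpa using hF1
        field_simp
      rw [this, Complex.div_ofReal_re]
    have hpos := hγpos s hs
    have hposC : (1 - (‖γ s‖:ℂ) ^ 2) ≠ 0 := by
      have : (1 - (‖γ s‖:ℂ) ^ 2) = ((1 - ‖γ s‖ ^ 2 : ℝ) : ℂ) := by push_cast; ring
      rw [this]
      exact_mod_cast hpos.ne'
    have e2 : deriv (deriv F) (γ s) * γ' s / deriv F (γ s) =
        2 * (γ' s * A + conj (γ s) * γ' s) / ((1 - ‖γ s‖ ^ 2 : ℝ) : ℂ) := by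
      rw [hAdef]
      push_cast
      field_simp
      ring
    have e3 : (deriv (deriv F) (γ s) * γ' s / deriv F (γ s)).re =
        2 * ((γ' s * A).re + (conj (γ s) * γ' s).re) / (1 - ‖γ s‖ ^ 2) := by
      rw [e2, Complex.div_ofReal_re]
      simp
    have e4 : (γ' s * A).re ≤ ‖γ' s‖ * α := by
      calc (γ' s * A).re ≤ ‖γ' s * A‖ := Complex.re_le_norm _
        _ = ‖γ' s‖ * ‖A‖ := norm_mul _ _
        _ ≤ ‖γ' s‖ * α := mul_le_mul_of_nonneg_left hA (norm_nonneg _)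
    have e5 := hratio s hs
    have e6 : p / (1 + p * s) - (-p) / (1 - p * s) = 2 * (p / (1 - s ^ 2 * p ^ 2)) := by
      have h1 := (hps s hs).ne'
      have h2 := (hps' s hs).ne'
      have h3 := (hsp s hs).ne'
      have h4 : 1 - s ^ 2 * p ^ 2 = (1 + p * s) * (1 - p * s) := by ring
      rw [h4]
      field_simp
      ring
    rw [mul_div_assoc, e1, e3, e6, ← e5]
    have e7 : 2 * (2 * ((γ' s * A).re + (conj (γ s) * γ' s).re) / (1 - ‖γ s‖ ^ 2)) +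
        2 * (-(2 * (conj (γ s) * γ' s).re) / (1 - ‖γ s‖ ^ 2)) -
        2 * α * (2 * (‖γ' s‖ / (1 - ‖γ s‖ ^ 2))) =
        4 * (((γ' s * A).re - ‖γ' s‖ * α) / (1 - ‖γ s‖ ^ 2)) := by
      field_simp
      ring
    rw [e7]
    have : ((γ' s * A).re - ‖γ' s‖ * α) / (1 - ‖γ s‖ ^ 2) ≤ 0 :=
      div_nonpos_of_nonpos_of_nonneg (by linarith) hpos.le
    linarith
  have hanti : AntitoneOn h (Icc 0 1) := by
    apply antitoneOn_of_deriv_nonpos (convex_Icc 0 1)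
    · intro s hs
      exact (hderiv s hs).continuousAt.continuousWithinAt
    · intro s hs
      rw [interior_Icc] at hs
      exact (hderiv s (Ioo_subset_Icc_self hs)).differentiableAt.differentiableWithinAt
    · intro s hs
      rw [interior_Icc] at hs
      rw [(hderiv s (Ioo_subset_Icc_self hs)).deriv]
      exact hneg s (Ioo_subset_Icc_self hs)
  have h01 : h 1 ≤ h 0 := hanti (by simp) (by simp) zero_le_one
  simp only [hh, hγ0, hγ1, mul_zero, add_zero, sub_zero, Real.log_one, mul_one, sub_self] at h01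
  have hFw : 0 < ‖deriv F w‖ := norm_pos_iff.mpr (hF' w (by simpa using hw))
  have hFz : 0 < ‖deriv F z‖ := norm_pos_iff.mpr (hF' z (by simpa using hz))
  have hq : (‖1 - conj z * w‖ + ‖w - z‖) / (‖1 - conj z * w‖ - ‖w - z‖) = (1 + p) / (1 - p) := by
    rw [hpv]
    have h1 : ‖1 - conj z * w‖ - ‖w - z‖ ≠ 0 := (sub_pos.mpr hRS).ne'
    have h2 := hS.ne'
    have h3 : 1 - ‖w - z‖ / ‖1 - conj z * w‖ ≠ 0 := by
      rw [← hpv]; exact (sub_pos.mpr hp1).ne'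
    generalize ‖1 - conj z * w‖ = G at *
    field_simp
  rw [hq]
  have hp1' : 0 < 1 - p := by linarith
  have hp1'' : 0 < 1 + p := by linarith
  rw [← Real.log_le_log_iff (by positivity) (by positivity)]
  rw [Real.log_mul (by positivity) (by positivity), Real.log_mul (by positivity) (by positivity),
    Real.log_mul (by positivity) (by positivity), Real.log_rpow (by positivity),
    Real.log_div (by positivity) (by positivity)]
  rw [Real.log_pow, Real.log_pow] at h01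
  push_cast at h01
  linarith

theorem hasDerivAt_of {g : ℂ → ℂ} (hg : DifferentiableOn ℂ g (ball 0 1)) {z : ℂ}
    (hz : z ∈ ball (0:ℂ) 1) : HasDerivAt g (deriv g z) z :=
  (hg.differentiableAt (isOpen_ball.mem_nhds hz)).hasDerivAt

theorem norm_conj_mul_lt {z w : ℂ} (hz : ‖z‖ < 1) (hw : ‖w‖ ≤ 1) : ‖conj z * w‖ < 1 := by
  rw [norm_mul, RCLike.norm_conj]
  nlinarith [norm_nonneg z, norm_nonneg w]

theorem one_sub_ne {z w : ℂ} (hz : ‖z‖ < 1) (hw : ‖w‖ ≤ 1) : 1 - conj z * w ≠ 0 := by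
  intro h
  have h1 := norm_conj_mul_lt hz hw
  have : conj z * w = 1 := by linear_combination -h
  rw [this] at h1
  simp at h1

theorem one_add_ne {z w : ℂ} (hz : ‖z‖ < 1) (hw : ‖w‖ ≤ 1) : 1 + conj z * w ≠ 0 := by
  have := one_sub_ne (z := z) (w := -w) hz (by simpa using hw)
  simpa using this

theorem pick_identity (z w : ℂ) :
    ‖1 - conj z * w‖ ^ 2 - ‖w - z‖ ^ 2 = (1 - ‖z‖ ^ 2) * (1 - ‖w‖ ^ 2) := by
  rw [Complex.sq_norm, Complex.sq_norm, Complex.sq_norm, Complex.sq_norm, normSq_apply,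
    normSq_apply, normSq_apply, normSq_apply]
  simp
  ring

/-- Möbius transformations preserve the closed disc. -/
theorem moeb_le {z w : ℂ} (hz : ‖z‖ < 1) (hw : ‖w‖ ≤ 1) : ‖(w - z) / (1 - conj z * w)‖ ≤ 1 := by
  have h1 := one_sub_ne hz hw
  have h2 : 0 < ‖1 - conj z * w‖ := norm_pos_iff.mpr h1
  rw [norm_div, div_le_one h2]
  have h3 := pick_identity z w
  have h4 : 0 ≤ (1 - ‖z‖ ^ 2) * (1 - ‖w‖ ^ 2) := by
    apply mul_nonneg <;> nlinarith [norm_nonneg z, norm_nonneg w]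
  nlinarith [norm_nonneg (w - z)]

/-- Schwarz-Pick inequality for the derivative. -/
theorem schwarz_pick {g : ℂ → ℂ} (hg : DifferentiableOn ℂ g (ball 0 1))
    (hg1 : ∀ z ∈ ball (0:ℂ) 1, ‖g z‖ ≤ 1) {z : ℂ} (hz : ‖z‖ < 1) :
    (1 - ‖z‖ ^ 2) * ‖deriv g z‖ ≤ 1 - ‖g z‖ ^ 2 := by
  have hzb : z ∈ ball (0:ℂ) 1 := by simpa using hz
  have hz2 : 0 < 1 - ‖z‖ ^ 2 := by nlinarith [norm_nonneg z]
  rcases lt_or_eq_of_le (hg1 z hzb) with hlt | heq
  · -- interior case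
    set c := g z with hc
    set T : ℂ → ℂ := fun x => (x + z) / (1 + conj z * x) with hT
    set H : ℂ → ℂ := fun x => (g (T x) - c) / (1 - conj c * g (T x)) with hH
    have hTb : ∀ x ∈ ball (0:ℂ) 1, T x ∈ ball (0:ℂ) 1 := by
      intro x hx
      rw [mem_ball_zero_iff] at hx ⊢
      have h1 := one_add_ne hz hx.le
      have h2 : 0 < ‖1 + conj z * x‖ := norm_pos_iff.mpr h1
      simp only [hT]
      rw [norm_div, div_lt_one h2]
      have h3 := pick_identity z (-x)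
      have h4 : 0 < (1 - ‖z‖ ^ 2) * (1 - ‖-x‖ ^ 2) := by
        apply mul_pos hz2
        rw [norm_neg]; nlinarith [norm_nonneg x]
      have h5 : ‖1 - conj z * -x‖ = ‖1 + conj z * x‖ := by congr 1; ring
      have h6 : ‖-x - z‖ = ‖x + z‖ := by rw [← norm_neg]; congr 1; ring
      rw [h5, h6] at h3
      nlinarith [norm_nonneg (x + z)]
    have hTd : ∀ x ∈ ball (0:ℂ) 1, HasDerivAt T ((1 * (1 + conj z * x) - (x + z) * conj z) /
        (1 + conj z * x) ^ 2) x := by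
      intro x hx
      rw [mem_ball_zero_iff] at hx
      have h1 : HasDerivAt (fun x : ℂ => x + z) 1 x := (hasDerivAt_id x).add_const z
      have h2 : HasDerivAt (fun x : ℂ => 1 + conj z * x) (conj z) x := by
        simpa using ((hasDerivAt_id x).const_mul (conj z)).const_add 1
      exact h1.div h2 (one_add_ne hz hx.le)
    have hgT : ∀ x ∈ ball (0:ℂ) 1, ‖g (T x)‖ ≤ 1 := fun x hx => hg1 _ (hTb x hx)
    have hgTd : ∀ x ∈ ball (0:ℂ) 1, HasDerivAt (fun x => g (T x)) (deriv g (T x) *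
        ((1 * (1 + conj z * x) - (x + z) * conj z) / (1 + conj z * x) ^ 2)) x := by
      intro x hx
      exact (hasDerivAt_of hg (hTb x hx)).comp x (hTd x hx)
    have hHd : ∀ x ∈ ball (0:ℂ) 1, DifferentiableAt ℂ H x := by
      intro x hx
      have h1 := (hgTd x hx).differentiableAt
      exact (h1.sub_const c).div ((h1.const_mul (conj c)).const_sub 1) (one_sub_ne hlt (hgT x hx))
    have h0b : (0:ℂ) ∈ ball (0:ℂ) 1 := by simp
    have hT0 : T 0 = z := by simp [hT]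
    have hH0 : H 0 = 0 := by simp [hH, hT0, ← hc]
    have hmaps : MapsTo H (ball 0 1) (closedBall (H 0) 1) := by
      intro x hx
      rw [hH0, mem_closedBall_zero_iff]
      exact moeb_le hlt (hgT x hx)
    have hder := norm_deriv_le_one_of_mapsTo_ball
      (fun x hx => (hHd x hx).differentiableWithinAt) hmaps one_pos
    have hHder : HasDerivAt H (deriv g z * (1 - ‖z‖ ^ 2) / (1 - ‖c‖ ^ 2)) 0 := by
      have h1 := hgTd 0 h0b
      have h2 := (h1.sub_const c).div ((h1.const_mul (conj c)).const_sub 1)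
        (one_sub_ne hlt (hgT 0 h0b))
      refine h2.congr_deriv ?_
      simp only [hT0, ← hc]
      have h3 : (1:ℂ) - conj c * c ≠ 0 := one_sub_ne hlt hlt.le
      have h4 : ((‖z‖:ℂ)) ^ 2 = conj z * z := by
        rw [mul_comm, Complex.mul_conj, Complex.normSq_eq_norm_sq]
        push_cast; ring
      have h5 : ((‖c‖:ℂ)) ^ 2 = conj c * c := by
        rw [mul_comm, Complex.mul_conj, Complex.normSq_eq_norm_sq]
        push_cast; ring
      rw [h4, h5]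
      generalize hdc : (1:ℂ) - conj c * c = dc at *
      field_simp
      simp
      ring
    rw [hHder.deriv] at hder
    have hc2 : 0 < 1 - ‖c‖ ^ 2 := by nlinarith [norm_nonneg c]
    have e1 : ‖deriv g z * (1 - (‖z‖:ℂ) ^ 2) / (1 - (‖c‖:ℂ) ^ 2)‖ =
        ‖deriv g z‖ * (1 - ‖z‖ ^ 2) / (1 - ‖c‖ ^ 2) := by
      have h6 : (1 - (‖z‖:ℂ) ^ 2) = ((1 - ‖z‖ ^ 2 : ℝ) : ℂ) := by push_cast; ring
      have h7 : (1 - (‖c‖:ℂ) ^ 2) = ((1 - ‖c‖ ^ 2 : ℝ) : ℂ) := by push_cast; ring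
      rw [h6, h7, norm_div, norm_mul, Complex.norm_real, Complex.norm_real, Real.norm_eq_abs,
        Real.norm_eq_abs, abs_of_pos hz2, abs_of_pos hc2]
    rw [e1, div_le_one hc2] at hder
    linarith
  · -- boundary case: `g` is constant
    have hmax : IsMaxOn (norm ∘ g) (ball 0 1) z := by
      intro x hx
      simp only [Function.comp_apply, mem_ofPred_eq]
      rw [heq]; exact hg1 x hx
    have hconst := Complex.eqOn_of_isPreconnected_of_isMaxOn_norm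
      (convex_ball (0:ℂ) 1).isPreconnected isOpen_ball hg hzb hmax
    have hd0 : deriv g z = 0 := by
      have : g =ᶠ[nhds z] fun _ => g z := by
        filter_upwards [isOpen_ball.mem_nhds hzb] with x hx
        exact hconst hx
      rw [this.deriv_eq]; simp
    rw [hd0, heq]; simp

/-- Dieudonné's lemma. -/
theorem dieudonne {g : ℂ → ℂ} (hg : DifferentiableOn ℂ g (ball 0 1))
    (hg1 : ∀ z ∈ ball (0:ℂ) 1, ‖g z‖ ≤ 1) (hg0 : g 0 = 0) {z : ℂ} (hz : ‖z‖ < 1) :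
    ‖g z‖ ≤ ‖z‖ ∧ (1 - ‖z‖ ^ 2) * ‖z * deriv g z - g z‖ ≤ ‖z‖ ^ 2 - ‖g z‖ ^ 2 := by
  have hzb : z ∈ ball (0:ℂ) 1 := by simpa using hz
  have h0b : (0:ℂ) ∈ ball (0:ℂ) 1 := by simp
  set χ : ℂ → ℂ := dslope g 0 with hχ
  have hχd : DifferentiableOn ℂ χ (ball 0 1) :=
    (differentiableOn_dslope (isOpen_ball.mem_nhds h0b)).mpr hg
  have hmaps : MapsTo g (ball 0 1) (closedBall (g 0) 1) := by
    intro x hx
    rw [hg0, mem_closedBall_zero_iff]
    exact hg1 x hx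
  have hχ1 : ∀ x ∈ ball (0:ℂ) 1, ‖χ x‖ ≤ 1 := by
    intro x hx
    have := norm_dslope_le_div_of_mapsTo_ball hg hmaps hx
    simpa using this
  have hgχ : ∀ x, g x = x * χ x := by
    intro x
    have := sub_smul_dslope g 0 x
    rw [hg0, sub_zero, sub_zero, smul_eq_mul] at this
    exact this.symm
  have hder : deriv g z = χ z + z * deriv χ z := by
    have h1 : HasDerivAt (fun x => x * χ x) (1 * χ z + z * deriv χ z) z :=
      (hasDerivAt_id z).mul (hasDerivAt_of hχd hzb)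
    have h2 : g = fun x => x * χ x := funext hgχ
    conv_lhs => rw [h2]
    rw [h1.deriv, one_mul]
  have hgz := hgχ z
  constructor
  · rw [hgz, norm_mul]
    have := mul_le_mul_of_nonneg_left (hχ1 z hzb) (norm_nonneg z)
    simpa using this
  · have h1 : z * deriv g z - g z = z ^ 2 * deriv χ z := by
      rw [hder, hgz]; ring
    rw [h1, norm_mul, norm_pow, hgz, norm_mul, mul_pow]
    have h2 := schwarz_pick hχd hχ1 hz
    have h3 := mul_le_mul_of_nonneg_left h2 (sq_nonneg ‖z‖)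
    nlinarith only [h3]

/-- The key pointwise bound for Schwarz functions with nonnegative derivative at the origin. -/
theorem schwarz_key {w : ℂ → ℂ} (hw : DifferentiableOn ℂ w (ball 0 1))
    (hwz : ∀ x ∈ ball (0:ℂ) 1, ‖w x‖ ≤ ‖x‖) {a : ℝ} (ha : deriv w 0 = a) (ha0 : 0 ≤ a)
    (ha1 : a < 1) {z : ℂ} (hz0 : 0 < ‖z‖) (hz1 : ‖z‖ < 1) (hz : 4 * ‖z‖ ≤ 1 + ‖z‖ ^ 2) :
    (1 - ‖z‖ ^ 2) ^ 2 * ‖deriv w z‖ ≤
      (‖1 - conj z * w z‖ - (1 - ‖z‖) ^ 2 / (2 * ‖z‖) * ‖w z - z‖) ^ 2 := by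
  have hzb : z ∈ ball (0:ℂ) 1 := by simpa using hz1
  have h0b : (0:ℂ) ∈ ball (0:ℂ) 1 := by simp
  have hw0 : w 0 = 0 := by simpa using hwz 0 h0b
  set φ : ℂ → ℂ := dslope w 0 with hφ
  have hφd : DifferentiableOn ℂ φ (ball 0 1) :=
    (differentiableOn_dslope (isOpen_ball.mem_nhds h0b)).mpr hw
  have hmaps : MapsTo w (ball 0 1) (closedBall (w 0) 1) := by
    intro x hx
    rw [hw0, mem_closedBall_zero_iff]
    exact (hwz x hx).trans (mem_ball_zero_iff.mp hx).le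
  have hφ1 : ∀ x ∈ ball (0:ℂ) 1, ‖φ x‖ ≤ 1 := by
    intro x hx
    have := norm_dslope_le_div_of_mapsTo_ball hw hmaps hx
    simpa using this
  have hwφ : ∀ x, w x = x * φ x := by
    intro x
    have := sub_smul_dslope w 0 x
    rw [hw0, sub_zero, sub_zero, smul_eq_mul] at this
    exact this.symm
  have hφ0 : φ 0 = a := by rw [hφ, dslope_same, ha]
  have han : ‖(a:ℂ)‖ < 1 := by
    rw [Complex.norm_real, Real.norm_eq_abs, abs_of_nonneg ha0]; exact ha1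
  set ψ : ℂ → ℂ := fun x => (φ x - a) / (1 - conj (a:ℂ) * φ x) with hψ
  have hden : ∀ x ∈ ball (0:ℂ) 1, 1 - conj (a:ℂ) * φ x ≠ 0 := fun x hx => one_sub_ne han (hφ1 x hx)
  have hψd : DifferentiableOn ℂ ψ (ball 0 1) :=
    (hφd.sub_const _).div ((hφd.const_mul _).const_sub _) hden
  have hψ1 : ∀ x ∈ ball (0:ℂ) 1, ‖ψ x‖ ≤ 1 := fun x hx => moeb_le han (hφ1 x hx)
  have hψ0 : ψ 0 = 0 := by simp [hψ, hφ0]
  obtain ⟨hq, hE⟩ := dieudonne hψd hψ1 hψ0 hz1
  have hden2 : ∀ x ∈ ball (0:ℂ) 1, 1 + a * ψ x ≠ 0 := by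
    intro x hx
    have := one_add_ne han (hψ1 x hx)
    simpa using this
  have hφψ : ∀ x ∈ ball (0:ℂ) 1, φ x = (a + ψ x) / (1 + a * ψ x) := by
    intro x hx
    rw [eq_div_iff (hden2 x hx)]
    have h1 : ψ x * (1 - a * φ x) = φ x - a := by
      have h2 := hden x hx
      simp only [hψ]
      rw [Complex.conj_ofReal] at h2 ⊢
      exact div_mul_cancel₀ _ h2
    linear_combination -h1
  set q : ℂ := ψ z with hqdef
  set E : ℂ := z * deriv ψ z - q with hEdef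
  have hφz := hφψ z hzb
  rw [← hqdef] at hφz
  have hdz := hden2 z hzb
  rw [← hqdef] at hdz
  have hφder : HasDerivAt φ ((deriv ψ z * (1 + a * q) - (a + q) * (a * deriv ψ z)) /
      (1 + a * q) ^ 2) z := by
    have h1 := hasDerivAt_of hψd hzb
    have h2 : HasDerivAt (fun x => (a + ψ x) / (1 + a * ψ x))
        ((deriv ψ z * (1 + a * q) - (a + q) * (a * deriv ψ z)) / (1 + a * q) ^ 2) z :=
      (h1.const_add _).div ((h1.const_mul _).const_add _) hdz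
    refine h2.congr_of_eventuallyEq ?_
    filter_upwards [isOpen_ball.mem_nhds hzb] with x hx
    exact hφψ x hx
  have hwder : deriv w z = (a + 2 * q + a * q ^ 2 + (1 - a ^ 2) * E) / (1 + a * q) ^ 2 := by
    have h1 : HasDerivAt (fun x => x * φ x) (1 * φ z + z * ((deriv ψ z * (1 + a * q) -
      (a + q) * (a * deriv ψ z)) / (1 + a * q) ^ 2)) z := (hasDerivAt_id z).mul hφder
    have h2 : w = fun x => x * φ x := funext hwφ
    conv_lhs => rw [h2]
    rw [h1.deriv, hφz, hEdef]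
    field_simp
    ring
  have hrsq : ((‖z‖:ℂ)) ^ 2 = conj z * z := by
    rw [mul_comm, Complex.mul_conj, Complex.normSq_eq_norm_sq]
    push_cast; ring
  set r : ℝ := ‖z‖ with hr
  have hcore := core_a r a ‖E‖ q hz0 hz1 hz ha0 ha1.le hq hE
  set G : ℝ := ‖1 + a * q‖ with hG
  have hG0 : 0 < G := norm_pos_iff.mpr hdz
  have e1 : ‖1 - conj z * w z‖ * G = ‖(1 - r ^ 2 * a) + q * (a - r ^ 2)‖ := by
    rw [hG, ← norm_mul, hwφ z, hφz, ← mul_assoc, ← hrsq]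
    congr 1
    field_simp
    ring
  have e2 : ‖w z - z‖ * G = r * ((1 - a) * ‖1 - q‖) := by
    have h1 : (w z - z) * (1 + a * q) = -(z * ((1 - a) * (1 - q))) := by
      rw [hwφ z, hφz]
      field_simp
      ring
    have h2 : ‖(1:ℂ) - a‖ = 1 - a := by
      have : (1:ℂ) - a = ((1 - a : ℝ) : ℂ) := by push_cast; ring
      rw [this, Complex.norm_real, Real.norm_eq_abs, abs_of_pos (by linarith)]
    rw [hG, ← norm_mul, h1, norm_neg, norm_mul, norm_mul, h2]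
  have e3 : ‖deriv w z‖ * G ^ 2 ≤ ‖a + 2 * q + a * q ^ 2‖ + (1 - a ^ 2) * ‖E‖ := by
    rw [hwder, norm_div, norm_pow, ← hG, div_mul_cancel₀ _ (by positivity)]
    refine (norm_add_le _ _).trans ?_
    rw [norm_mul]
    have h2 : ‖(1:ℂ) - a ^ 2‖ = 1 - a ^ 2 := by
      have : (1:ℂ) - a ^ 2 = ((1 - a ^ 2 : ℝ) : ℂ) := by push_cast; ring
      rw [this, Complex.norm_real, Real.norm_eq_abs, abs_of_nonneg (by nlinarith)]
    rw [h2]
  have e4 : (‖1 - conj z * w z‖ - (1 - r) ^ 2 / (2 * r) * ‖w z - z‖) * G =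
      ‖(1 - r ^ 2 * a) + q * (a - r ^ 2)‖ - (1 - r) ^ 2 / 2 * ((1 - a) * ‖1 - q‖) := by
    rw [sub_mul, e1, mul_assoc, e2]
    field_simp
  have e5 : (1 - r ^ 2) ^ 2 * (‖deriv w z‖ * G ^ 2) ≤
      ((‖1 - conj z * w z‖ - (1 - r) ^ 2 / (2 * r) * ‖w z - z‖) * G) ^ 2 := by
    rw [e4]
    exact (mul_le_mul_of_nonneg_left e3 (sq_nonneg _)).trans hcore
  rw [mul_pow, ← mul_assoc] at e5
  exact le_of_mul_le_mul_right e5 (by positivity)

/-- Bernoulli step. -/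
theorem bernoulli_step {S R α β : ℝ} (hR0 : 0 ≤ R) (hRS : R < S) (hβ : 1 ≤ β) (hαβ : α ≤ β)
    (hS : 0 ≤ S - β * R) :
    (S - β * R) ^ 2 * ((S + R) / (S - R)) ^ α ≤ S ^ 2 - R ^ 2 := by
  have h1 : 0 < S - R := by linarith
  have h2 : 0 < S + R := by linarith
  set x : ℝ := (S - R) / (S + R) with hx
  have hx0 : 0 < x := by positivity
  have hx1 : x ≤ 1 := by rw [hx, div_le_one h2]; linarith
  have hinv : (S + R) / (S - R) = x⁻¹ := by rw [hx, inv_div]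
  rw [hinv, Real.inv_rpow hx0.le]
  rw [← div_eq_mul_inv, div_le_iff₀ (by positivity)]
  have h3 : x ^ β ≤ x ^ α := Real.rpow_le_rpow_of_exponent_ge hx0 hx1 hαβ
  have h4 : (S - β * R) ^ 2 ≤ (S ^ 2 - R ^ 2) * x ^ β := by
    have h5 : (S - β * R) / (S + R) ≤ x ^ ((β + 1) / 2) := by
      have h6 := one_add_mul_self_le_rpow_one_add (s := x - 1) (by linarith) (p := (β + 1) / 2)
        (by linarith)
      have h7 : 1 + (β + 1) / 2 * (x - 1) = (S - β * R) / (S + R) := by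
        rw [hx]; field_simp; ring
      rw [h7] at h6
      simpa using h6
    have h8 : ((S - β * R) / (S + R)) ^ 2 ≤ (x ^ ((β + 1) / 2)) ^ 2 :=
      pow_le_pow_left₀ (by positivity) h5 2
    have h9 : (x ^ ((β + 1) / 2)) ^ 2 = x ^ β * x := by
      rw [← Real.rpow_natCast, ← Real.rpow_mul hx0.le]
      have : (β + 1) / 2 * ((2:ℕ):ℝ) = β + 1 := by push_cast; ring
      rw [this, Real.rpow_add hx0, Real.rpow_one]
    rw [h9, div_pow, div_le_iff₀ (by positivity)] at h8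
    have h10 : x * (S + R) ^ 2 = S ^ 2 - R ^ 2 := by
      rw [hx]; field_simp; ring
    calc (S - β * R) ^ 2 ≤ x ^ β * x * (S + R) ^ 2 := h8
      _ = x ^ β * (x * (S + R) ^ 2) := by ring
      _ = (S ^ 2 - R ^ 2) * x ^ β := by rw [h10]; ring
  have h11 : 0 ≤ S ^ 2 - R ^ 2 := by nlinarith
  exact h4.trans (mul_le_mul_of_nonneg_left h3 h11)

/-- The order of a locally univalent function `F` of the unit disc (in the sense of Pommerenke's
linear-invariant families): the supremum over the disc of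
`|-conj z + (1 - |z|^2) F''(z) / (2 F'(z))|`. -/
noncomputable def ord (F : ℂ → ℂ) : ENNReal :=
  ⨆ z ∈ ball (0:ℂ) 1,
    ENNReal.ofReal ‖-conj z + (1 - (‖z‖:ℂ) ^ 2) * deriv (deriv F) z / (2 * deriv F z)‖

/-- The class `U_α`: functions analytic and locally univalent in the unit disc, normalised by
`F(0) = 0`, `F'(0) = 1`, of order at most `α`. -/
structure MemU (α : ℝ) (F : ℂ → ℂ) : Prop where
  analytic : DifferentiableOn ℂ F (ball 0 1)
  map_zero : F 0 = 0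
  deriv_zero : deriv F 0 = 1
  locally_univalent : ∀ z ∈ ball (0:ℂ) 1, deriv F z ≠ 0
  order_le : ord F ≤ ENNReal.ofReal α

/-- Subordination in the unit disc: `f = F ∘ w` with `w` analytic and `|w(z)| ≤ |z|`. -/
def Subordinate (f F : ℂ → ℂ) : Prop :=
  ∃ w : ℂ → ℂ, DifferentiableOn ℂ w (ball 0 1) ∧ (∀ z ∈ ball (0:ℂ) 1, ‖w z‖ ≤ ‖z‖) ∧
    ∀ z ∈ ball (0:ℂ) 1, f z = F (w z)

/-- Majorization on the disc `|z| < r`. -/
def Majorized (f F : ℂ → ℂ) (r : ℝ) : Prop :=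
  ∀ z : ℂ, ‖z‖ < r → ‖f z‖ ≤ ‖F z‖

/-- Campbell's radius `ρ(α) = α + 1 - √(α² + 2α)`. -/
noncomputable def rho (α : ℝ) : ℝ := α + 1 - Real.sqrt (α ^ 2 + 2 * α)

/-- **Campbell's conjecture**: for every `α ≥ 1` (in particular for `1 < α < 1.65`), if
`F ∈ U_α`, `f ≺ F` in the unit disc and `f'(0) ≥ 0`, then `|f'(z)| ≤ |F'(z)|` for
`|z| < ρ(α) = α + 1 - √(α² + 2α)`. -/
theorem result (α : ℝ) (hα : 1 ≤ α) (F f : ℂ → ℂ) (hF : MemU α F) (hfF : Subordinate f F)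
    (hre : 0 ≤ (deriv f 0).re) (him : (deriv f 0).im = 0) :
    Majorized (deriv f) (deriv F) (rho α) := by
  intro z hz
  unfold rho at hz
  obtain ⟨w, hw, hwz, hfw⟩ := hfF
  have h0b : (0:ℂ) ∈ ball (0:ℂ) 1 := by simp
  have hw0 : w 0 = 0 := by simpa using hwz 0 h0b
  -- elementary consequences of the bound on `‖z‖`
  have hsq : Real.sqrt (α ^ 2 + 2 * α) ^ 2 = α ^ 2 + 2 * α := Real.sq_sqrt (by positivity)
  have hsq0 : 0 ≤ Real.sqrt (α ^ 2 + 2 * α) := Real.sqrt_nonneg _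
  have hsqα : α ≤ Real.sqrt (α ^ 2 + 2 * α) := Real.le_sqrt_of_sq_le (by nlinarith)
  have hz1 : ‖z‖ < 1 := by linarith
  have hz2 : 2 * (α + 1) * ‖z‖ < 1 + ‖z‖ ^ 2 := by
    have h1 : Real.sqrt (α ^ 2 + 2 * α) < α + 1 - ‖z‖ := by linarith
    have h2 : Real.sqrt (α ^ 2 + 2 * α) ^ 2 < (α + 1 - ‖z‖) ^ 2 :=
      pow_lt_pow_left₀ h1 hsq0 (by norm_num)
    rw [hsq] at h2
    nlinarith
  have hz4 : 4 * ‖z‖ ≤ 1 + ‖z‖ ^ 2 := by nlinarith [norm_nonneg z]
  have hzb : z ∈ ball (0:ℂ) 1 := by simpa using hz1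
  have hord : ∀ z ∈ ball (0:ℂ) 1,
      ‖-conj z + (1 - (‖z‖:ℂ) ^ 2) * deriv (deriv F) z / (2 * deriv F z)‖ ≤ α := by
    intro x hx
    have h1 : ENNReal.ofReal
        ‖-conj x + (1 - (‖x‖:ℂ) ^ 2) * deriv (deriv F) x / (2 * deriv F x)‖ ≤ ord F := by
      unfold ord
      exact le_iSup₂ (f := fun (z : ℂ) (_ : z ∈ ball (0:ℂ) 1) => ENNReal.ofReal
        ‖-conj z + (1 - (‖z‖:ℂ) ^ 2) * deriv (deriv F) z / (2 * deriv F z)‖) x hx
    exact (ENNReal.ofReal_le_ofReal_iff (by linarith)).mp (h1.trans hF.order_le)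
  -- derivative of `f`
  have hfder : ∀ x ∈ ball (0:ℂ) 1, w x ∈ ball (0:ℂ) 1 → deriv f x = deriv F (w x) * deriv w x := by
    intro x hx hwx
    have h1 : HasDerivAt (fun x => F (w x)) (deriv F (w x) * deriv w x) x :=
      (hasDerivAt_of hF.analytic hwx).comp x (hasDerivAt_of hw hx)
    have h2 : f =ᶠ[nhds x] fun x => F (w x) := by
      filter_upwards [isOpen_ball.mem_nhds hx] with y hy
      exact hfw y hy
    rw [h2.deriv_eq, h1.deriv]
  have hwball : ∀ x ∈ ball (0:ℂ) 1, w x ∈ ball (0:ℂ) 1 := by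
    intro x hx
    rw [mem_ball_zero_iff] at hx ⊢
    exact (hwz x (mem_ball_zero_iff.mpr hx)).trans_lt hx
  have hf0 : deriv f 0 = deriv w 0 := by
    rw [hfder 0 h0b (hwball 0 h0b), hw0, hF.deriv_zero, one_mul]
  have hmaps : MapsTo w (ball 0 1) (closedBall (w 0) 1) := by
    intro x hx
    rw [hw0, mem_closedBall_zero_iff]
    exact (mem_ball_zero_iff.mp (hwball x hx)).le
  have hdw0 : ‖deriv w 0‖ ≤ 1 := norm_deriv_le_one_of_mapsTo_ball hw hmaps one_pos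
  rw [hf0] at hre him
  set a : ℝ := (deriv w 0).re with ha
  have haw : deriv w 0 = a := by
    apply Complex.ext <;> simp [ha, him]
  have ha1 : a ≤ 1 := by
    have : ‖deriv w 0‖ = a := by
      rw [haw, Complex.norm_real, Real.norm_eq_abs, abs_of_nonneg hre]
    linarith
  rcases eq_or_ne z 0 with rfl | hz0
  · rw [hf0, hF.deriv_zero]; simpa using hdw0
  have hzpos : 0 < ‖z‖ := norm_pos_iff.mpr hz0
  rcases eq_or_lt_of_le ha1 with ha1 | ha1
  · -- `w` is the identity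
    have haff := affine_of_mapsTo_ball_of_norm_dslope_eq_div (z₀ := 0) hw hmaps h0b
      (by rw [dslope_same, haw, ha1]; simp)
    have hwid : ∀ x ∈ ball (0:ℂ) 1, w x = x := by
      intro x hx
      have := haff hx
      simp only [hw0, dslope_same, haw, ha1] at this
      simpa using this
    have h2 : f =ᶠ[nhds z] F := by
      filter_upwards [isOpen_ball.mem_nhds hzb] with y hy
      rw [hfw y hy, hwid y hy]
    rw [h2.deriv_eq]
  · have hkey := schwarz_key hw hwz haw hre ha1 hzpos hz1 hz4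
    have hwn : ‖w z‖ < 1 := by simpa using hwball z hzb
    have hdist := distortion hF.analytic hF.locally_univalent hord hz1 hwn
    have hpick := pick_identity z (w z)
    have hzz : 0 < 1 - ‖z‖ ^ 2 := by nlinarith
    have hww : 0 < 1 - ‖w z‖ ^ 2 := by nlinarith [norm_nonneg (w z)]
    set S : ℝ := ‖1 - conj z * w z‖ with hS
    set R : ℝ := ‖w z - z‖ with hR
    set r : ℝ := ‖z‖ with hr
    set β : ℝ := (1 - r) ^ 2 / (2 * r) with hβ
    have hαβ : α ≤ β := by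
      rw [hβ, le_div_iff₀ (by positivity)]; nlinarith
    have hR0 : 0 ≤ R := norm_nonneg _
    have hRS : R < S := by
      have h1 : 0 < S ^ 2 - R ^ 2 := by rw [hpick]; positivity
      have h2 : 0 ≤ S := norm_nonneg _
      nlinarith
    have hRr : R ≤ 2 * r := by
      have := norm_sub_le (w z) z
      have h2 := hwz z hzb
      rw [hR]; linarith
    have hSr : 1 - r ^ 2 ≤ S := by
      have h1 : ‖(1:ℂ)‖ - ‖conj z * w z‖ ≤ S := norm_sub_norm_le _ _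
      rw [norm_mul, RCLike.norm_conj, norm_one] at h1
      have h2 := hwz z hzb
      have h3 : ‖z‖ * ‖w z‖ ≤ r * r := mul_le_mul le_rfl h2 (norm_nonneg _) (norm_nonneg _)
      rw [← hr] at h1 h3
      nlinarith
    have hSβ : 0 < S - β * R := by
      have h1 : β * R ≤ (1 - r) ^ 2 := by
        have : β * R ≤ β * (2 * r) := mul_le_mul_of_nonneg_left hRr (by positivity)
        have h2 : β * (2 * r) = (1 - r) ^ 2 := by rw [hβ]; field_simp
        linarith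
      nlinarith
    have hB := bernoulli_step hR0 hRS (hα.trans hαβ) hαβ hSβ.le
    set X : ℝ := ((S + R) / (S - R)) ^ α with hX
    have hX0 : 0 ≤ X := by
      have : 0 < S - R := by linarith
      positivity
    rw [hfder z hzb (hwball z hzb), norm_mul]
    have hFz0 : 0 ≤ ‖deriv F z‖ := norm_nonneg _
    -- combine
    have s1 : (1 - r ^ 2) ^ 2 * ‖deriv w z‖ * X ≤ (1 - r ^ 2) * (1 - ‖w z‖ ^ 2) := by
      calc (1 - r ^ 2) ^ 2 * ‖deriv w z‖ * X ≤ (S - β * R) ^ 2 * X :=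
            mul_le_mul_of_nonneg_right hkey hX0
        _ ≤ S ^ 2 - R ^ 2 := hB
        _ = (1 - r ^ 2) * (1 - ‖w z‖ ^ 2) := hpick
    have s2 : (1 - r ^ 2) * ‖deriv w z‖ * X ≤ 1 - ‖w z‖ ^ 2 := by
      have h1 : (1 - r ^ 2) * ((1 - r ^ 2) * ‖deriv w z‖ * X) ≤
          (1 - r ^ 2) * (1 - ‖w z‖ ^ 2) := by
        calc _ = (1 - r ^ 2) ^ 2 * ‖deriv w z‖ * X := by ring
          _ ≤ _ := s1
      exact le_of_mul_le_mul_left h1 hzz
    have s3 : ‖deriv F (w z)‖ * ‖deriv w z‖ * (1 - ‖w z‖ ^ 2) ≤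
        ‖deriv F z‖ * (1 - ‖w z‖ ^ 2) := by
      calc ‖deriv F (w z)‖ * ‖deriv w z‖ * (1 - ‖w z‖ ^ 2)
          = ‖deriv w z‖ * (‖deriv F (w z)‖ * (1 - ‖w z‖ ^ 2)) := by ring
        _ ≤ ‖deriv w z‖ * (‖deriv F z‖ * (1 - r ^ 2) * X) :=
            mul_le_mul_of_nonneg_left hdist (norm_nonneg _)
        _ = ‖deriv F z‖ * ((1 - r ^ 2) * ‖deriv w z‖ * X) := by ring
        _ ≤ ‖deriv F z‖ * (1 - ‖w z‖ ^ 2) := mul_le_mul_of_nonneg_left s2 hFz0
    exact le_of_mul_le_mul_right s3 hww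

end Pool.Agent.Results.MP_c4ccc8_an.Campbell
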